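import Mathlib
import Pool.Agent.H6.KK8

namespace Pool.Agent.Results.MP_023270_nt.Counter

open Filter Topology

/-- The function `Φ` of the problem file (the sum over `n ≥ 1` is written with `n + 1`). -/
noncomputable def Phi (t : ℝ) : ℝ :=
  2 * ∑' n : ℕ, (2 * Real.pi ^ 2 * ((n : ℝ) + 1) ^ 4 * Real.exp (9 * t / 2) -
    3 * Real.pi * ((n : ℝ) + 1) ^ 2 * Real.exp (5 * t / 2)) *
      Real.exp (-Real.pi * ((n : ℝ) + 1) ^ 2 * Real.exp (2 * t))

/-- The deformed function `Ξ_λ`. -/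
noncomputable def Xi (lam : ℝ) (z : ℂ) : ℂ :=
  ∫ t : ℝ, (Phi t : ℂ) * (Real.exp (lam * t ^ 2) : ℂ) * Complex.exp (Complex.I * z * t)

/-- The number of zeros of `F` in `S`, counted with multiplicity, as an element of `[0, ∞]`. -/
noncomputable def zeros (F : ℂ → ℂ) (S : Set ℂ) : ENNReal :=
  ∑' z : S, ((analyticOrderAt F (z : ℂ) : ℕ∞) : ENNReal)

/-- Real zeros with `|z| ≤ T`. -/
noncomputable def realZeros (lam T : ℝ) : ENNReal := zeros (Xi lam) {z | z.im = 0 ∧ ‖z‖ ≤ T}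

/-- All zeros with `|Re z| ≤ T`. -/
noncomputable def allZeros (lam T : ℝ) : ENNReal := zeros (Xi lam) {z | |z.re| ≤ T}

/-- Non-real zeros in the box `|Re z| ≤ T`, `-log T ≤ Im z < 0`. -/
noncomputable def boxZeros (lam T : ℝ) : ENNReal :=
  zeros (Xi lam) {z | |z.re| ≤ T ∧ z.im < 0 ∧ -Real.log T ≤ z.im}

theorem result : ∃ lam : ℝ, lam < 0 ∧ Differentiable ℂ (Xi lam) ∧
    (∀ T : ℝ, allZeros lam T ≠ ⊤) ∧
    (∃ c C : ℝ, 0 < c ∧ ∀ᶠ T : ℝ in atTop,
      realZeros lam T ≤ ENNReal.ofReal (C * (T * Real.log T)) ∧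
      ENNReal.ofReal (c * (T * Real.log T)) ≤ boxZeros lam T) ∧
    (∃ θ : ℝ, θ < 1 ∧ ∀ᶠ T : ℝ in atTop,
      realZeros lam T / allZeros lam T ≤ ENNReal.ofReal θ) ∧
    ¬ Tendsto (fun T : ℝ => realZeros lam T / allZeros lam T) atTop (𝓝 1) := by
  obtain ⟨c, c0, h⟩ := Pool.Agent.H6.KK.lower
  have h1 : ∀ᶠ T : ℝ in atTop,
      realZeros (-1 / 4) T ≤ ENNReal.ofReal (761 * (T * Real.log T)) ∧
      ENNReal.ofReal (c * (T * Real.log T)) ≤ boxZeros (-1 / 4) T :=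
    Pool.Agent.H6.KK.upper.and h
  have t1 : 761 / (761 + c) < 1 := by rw [div_lt_one (by positivity)]; linarith
  have h2 : ∀ᶠ T : ℝ in atTop, realZeros (-1 / 4) T / allZeros (-1 / 4) T ≤
      ENNReal.ofReal (761 / (761 + c)) := by
    filter_upwards [h1, eventually_ge_atTop 1] with T ⟨a, b⟩ T1
    have x0 : 0 ≤ T * Real.log T := mul_nonneg (by linarith) (Real.log_nonneg T1)
    have u : realZeros (-1 / 4) T + boxZeros (-1 / 4) T ≤ allZeros (-1 / 4) T := by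
      refine (Pool.Agent.H6.KK.cnt_union _ ?_).symm.trans_le
        (Pool.Agent.H6.KK.cnt_mono _ fun z hz => ?_)
      · rw [Set.disjoint_left]
        exact fun z z1 z2 => z2.2.1.ne z1.1
      · exact hz.elim (fun e => (Complex.abs_re_le_norm z).trans e.2) fun e => e.1
    refine ENNReal.div_le_of_le_mul (le_trans ?_
      (mul_le_mul_right ((add_le_add le_rfl b).trans u) _))
    have fin := ne_top_of_le_ne_top ENNReal.ofReal_ne_top a
    rw [← ENNReal.ofReal_toReal fin] at a ⊢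
    have r0 : 0 ≤ (realZeros (-1 / 4) T).toReal := ENNReal.toReal_nonneg
    rw [ENNReal.ofReal_le_ofReal_iff (by positivity)] at a
    rw [← ENNReal.ofReal_add r0 (by positivity), ← ENNReal.ofReal_mul (by positivity)]
    refine ENNReal.ofReal_le_ofReal ?_
    rw [div_mul_eq_mul_div, le_div_iff₀ (by positivity)]
    nlinarith [mul_le_mul_of_nonneg_left a c0.le]
  refine ⟨-1 / 4, by norm_num, Pool.Agent.H6.KK.Xi_diff, Pool.Agent.H6.KK.strip_fin,
    ⟨c, 761, c0, h1⟩, ⟨_, t1, h2⟩, fun ht => ?_⟩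
  exact absurd (le_of_tendsto ht h2) (not_le.mpr (ENNReal.ofReal_lt_one.mpr t1))

end Pool.Agent.Results.MP_023270_nt.Counter
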